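import Mathlib

/-!
# MP_1b9d6e_gt: core-compactness of `X` and of the Scott space of its closed sets

If the lattice of closed subsets of a topological space `X`, with its Scott topology, is a
core-compact space, then `X` is core-compact.
-/

namespace Pool.Agent.Results.MP_1b9d6e_gt.CoreCompact

open Set Filter Topology TopologicalSpace Cardinal

universe u

/-- `V ≪ U`: every family of open sets whose union contains `U` has a finite subfamily whose union
contains `V`. -/
def WayBelow {Y : Type*} [TopologicalSpace Y] (V U : Set Y) : Prop :=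
  ∀ S : Set (Set Y), (∀ s ∈ S, IsOpen s) → U ⊆ ⋃₀ S → ∃ F ⊆ S, F.Finite ∧ V ⊆ ⋃₀ F

/-- Core-compact spaces. -/
def IsCoreCompact (Y : Type*) [TopologicalSpace Y] : Prop :=
  ∀ U : Set Y, IsOpen U → ∀ y ∈ U, ∃ V : Set Y, IsOpen V ∧ y ∈ V ∧ WayBelow V U

/-! ### Scott closed families -/

variable {L : Type u} [CompleteLattice L]

/-- Scott closed subsets of a complete lattice. -/
def SC (K : Set L) : Prop :=
  IsLowerSet K ∧ ∀ D : Set L, D ⊆ K → D.Nonempty → DirectedOn (· ≤ ·) D → sSup D ∈ K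

lemma isOpen_iff (W : Set (WithScott L)) :
    IsOpen W ↔ SC (L := L) (WithScott.toScott ⁻¹' W)ᶜ := by
  rw [IsScott.isOpen_iff_isUpperSet_and_dirSupInaccOn (D := univ), dirSupInaccOn_univ]
  constructor
  · rintro ⟨h1, h2⟩
    refine ⟨h1.compl, fun D hD hne hdir => ?_⟩
    intro hmem
    obtain ⟨d, hd, hd'⟩ := h2 (d := D) hne hdir (isLUB_sSup D) hmem
    exact hD hd hd'
  · rintro ⟨h1, h2⟩
    refine ⟨fun a b hab ha => ?_, ?_⟩
    · by_contra hb
      exact h1 hab hb ha
    · intro D hne hdir a ha haW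
      by_contra hcon
      rw [Set.not_nonempty_iff_eq_empty] at hcon
      have h3 : D ⊆ (WithScott.toScott ⁻¹' W)ᶜ := by
        intro d hd hdW
        have : d ∈ D ∩ W := ⟨hd, hdW⟩
        rw [hcon] at this
        exact this
      have h4 := h2 D h3 hne hdir
      have h5 : (sSup (D : Set L) : L) = a := (isLUB_sSup (α := L) D).unique ha
      rw [h5] at h4
      exact h4 haW

lemma SC.sInter {T : Set (Set L)} (h : ∀ K ∈ T, SC K) : SC (⋂₀ T) := by
  refine ⟨fun a b hab ha K hK => (h K hK).1 hab (ha K hK), fun D hD hne hdir K hK => ?_⟩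
  exact (h K hK).2 D (fun d hd => hD hd K hK) hne hdir

/-- The Scott closure. -/
def clos (G : Set L) : Set L := ⋂₀ {K | SC K ∧ G ⊆ K}

lemma sc_clos (G : Set L) : SC (clos G) := SC.sInter fun _ hK => hK.1

lemma subset_clos (G : Set L) : G ⊆ clos G := fun _ hg _ hK => hK.2 hg

lemma clos_subset {G K : Set L} (hK : SC K) (h : G ⊆ K) : clos G ⊆ K :=
  fun _ ha => ha K ⟨hK, h⟩

lemma clos_mono {G H : Set L} (h : G ⊆ H) : clos G ⊆ clos H :=
  clos_subset (sc_clos H) (h.trans (subset_clos H))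


/-! ### Closed sets -/

variable {X : Type u} [TopologicalSpace X]

/-- The closure of a point. -/
def pc (x : X) : Closeds X := Closeds.closure {x}

lemma mem_pc (x : X) : x ∈ pc x := subset_closure rfl

lemma pc_le {x : X} {F : Closeds X} : pc x ≤ F ↔ x ∈ F := by
  rw [pc, Closeds.closure_le, Set.singleton_subset_iff]; rfl

/-- Unions of a member of `K` and a member of `M`. -/
def join (K M : Set (Closeds X)) : Set (Closeds X) := {F | ∃ A ∈ K, ∃ B ∈ M, F ≤ A ⊔ B}

lemma mem_sup_iff {A B : Closeds X} {x : X} : x ∈ A ⊔ B ↔ x ∈ A ∨ x ∈ B := by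
  have : x ∈ ((A ⊔ B : Closeds X) : Set X) ↔ x ∈ ((A : Set X) ∪ (B : Set X)) := by
    rw [Closeds.coe_sup]
  exact this

lemma sc_join {K M : Set (Closeds X)} (hK : SC K) (hM : SC M) : SC (join K M) := by
  refine ⟨?_, ?_⟩
  · rintro F G hGF ⟨A, hA, B, hB, h⟩
    exact ⟨A, hA, B, hB, hGF.trans h⟩
  · intro D hD hne hdir
    have hex : ∀ d : D, ∃ A B : Closeds X, A ∈ K ∧ B ∈ M ∧ (d : Closeds X) ≤ A ⊔ B := by
      intro d
      obtain ⟨A, hA, B, hB, h⟩ := hD d.2
      exact ⟨A, B, hA, hB, h⟩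
    choose A B hA hB hAB using hex
    have : Nonempty D := hne.to_subtype
    have : IsDirected D (· ≤ ·) := ⟨fun a b => by
      obtain ⟨c, hc, h1, h2⟩ := hdir a a.2 b b.2
      exact ⟨⟨c, hc⟩, h1, h2⟩⟩
    let 𝒰 : Ultrafilter D := Ultrafilter.of atTop
    have h𝒰 : (𝒰 : Filter D) ≤ atTop := Ultrafilter.of_le atTop
    have key : ∀ (N : Set (Closeds X)) (hN : SC N) (E : D → Closeds X) (hE : ∀ d, E d ∈ N),
        sSup {F : Closeds X | ∃ S ∈ 𝒰, F = sInf (E '' S)} ∈ N := by
      intro N hN E hE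
      refine hN.2 _ ?_ ?_ ?_
      · rintro F ⟨S, hS, rfl⟩
        obtain ⟨d, hd⟩ := 𝒰.nonempty_of_mem hS
        exact hN.1 (sInf_le (mem_image_of_mem E hd)) (hE d)
      · exact ⟨_, univ, Filter.univ_mem, rfl⟩
      · rintro F ⟨S, hS, rfl⟩ G ⟨T, hT, rfl⟩
        refine ⟨_, ⟨S ∩ T, Filter.inter_mem hS hT, rfl⟩, ?_, ?_⟩
        · exact sInf_le_sInf (image_mono inter_subset_left)
        · exact sInf_le_sInf (image_mono inter_subset_right)
    refine ⟨_, key K hK A hA, _, key M hM B hB, ?_⟩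
    refine sSup_le fun d₀ hd₀ => ?_
    intro v hv
    have hev : ∀ᶠ d in (𝒰 : Filter D), v ∈ A d ∨ v ∈ B d := by
      refine h𝒰 ?_
      filter_upwards [eventually_ge_atTop (⟨d₀, hd₀⟩ : D)] with d hd
      have h1 : v ∈ (d : Closeds X) := hd hv
      exact mem_sup_iff.1 (hAB d h1)
    have aux : ∀ (E : D → Closeds X), {d | v ∈ E d} ∈ 𝒰 →
        v ∈ sSup {F : Closeds X | ∃ S ∈ 𝒰, F = sInf (E '' S)} := by
      intro E hE
      have h1 : sInf (E '' {d | v ∈ E d}) ≤ sSup {F : Closeds X | ∃ S ∈ 𝒰, F = sInf (E '' S)} :=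
        le_sSup ⟨_, hE, rfl⟩
      refine h1 ?_
      rw [Closeds.mem_sInf]
      rintro _ ⟨d, hd, rfl⟩
      exact hd
    rcases Ultrafilter.eventually_or.1 hev with h | h
    · exact mem_sup_iff.2 (Or.inl (aux A h))
    · exact mem_sup_iff.2 (Or.inr (aux B h))

/-- Unions of at most `n` members of `K`. -/
def pw (K : Set (Closeds X)) : ℕ → Set (Closeds X)
  | 0 => {⊥}
  | n + 1 => join (pw K n) K

lemma sc_pw {K : Set (Closeds X)} (hK : SC K) (n : ℕ) : SC (pw K n) := by
  induction n with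
  | zero =>
    refine ⟨fun a b hab ha => ?_, fun D hD hne hdir => ?_⟩
    · rw [pw, mem_singleton_iff] at ha ⊢
      subst ha
      exact le_bot_iff.1 hab
    · rw [pw, mem_singleton_iff, sSup_eq_bot]
      intro a ha
      exact hD ha
  | succ n ih => exact sc_join ih hK

lemma pw_mono {K M : Set (Closeds X)} (h : K ⊆ M) (n : ℕ) : pw K n ⊆ pw M n := by
  induction n with
  | zero => exact subset_rfl
  | succ n ih =>
    rintro F ⟨A, hA, B, hB, hF⟩
    exact ⟨A, ih hA, B, h hB, hF⟩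

lemma pc_mem_of_pc_mem_pw {K : Set (Closeds X)} (hK : SC K) {v : X} (n : ℕ)
    (h : pc v ∈ pw K n) : pc v ∈ K := by
  induction n with
  | zero =>
    rw [pw, mem_singleton_iff] at h
    have h1 : v ∈ pc v := mem_pc v
    rw [h] at h1
    exact absurd h1 (Set.notMem_empty v)
  | succ n ih =>
    obtain ⟨A, hA, B, hB, hF⟩ := h
    rcases mem_sup_iff.1 (hF (mem_pc v)) with h1 | h1
    · exact ih ((sc_pw hK n).1 (pc_le.2 h1) hA)
    · exact hK.1 (pc_le.2 h1) hB

lemma closure_mem_pw {K : Set (Closeds X)} (T : Finset X) (hT : ∀ t ∈ T, pc t ∈ K) :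
    Closeds.closure (T : Set X) ∈ pw K T.card := by
  classical
  induction T using Finset.induction_on with
  | empty =>
    rw [Finset.card_empty, pw, mem_singleton_iff, ← le_bot_iff, Closeds.closure_le]
    simp
  | insert a T ha ih =>
    rw [Finset.card_insert_of_notMem ha]
    refine ⟨_, ih fun t ht => hT t (Finset.mem_insert_of_mem ht), _,
      hT a (Finset.mem_insert_self a T), ?_⟩
    rw [Closeds.closure_le]
    intro t ht
    rw [Finset.mem_coe, Finset.mem_insert] at ht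
    refine mem_sup_iff.2 ?_
    rcases ht with rfl | ht
    · exact Or.inr (mem_pc t)
    · exact Or.inl (subset_closure ht)

/-! ### The space of closed sets -/

/-- The closed sets which meet `U`. -/
def dia (U : Set X) : Set (WithScott (Closeds X)) :=
  {F | ∃ v ∈ (WithScott.ofScott F : Closeds X), v ∈ U}

lemma sc_Iic (C : Closeds X) : SC (Iic C) :=
  ⟨fun _ _ hab ha => hab.trans ha, fun _ hD _ _ => sSup_le fun _ hd => hD hd⟩

lemma isOpen_dia {U : Set X} (hU : IsOpen U) : IsOpen (dia U) := by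
  rw [isOpen_iff]
  have : (WithScott.toScott ⁻¹' (dia U))ᶜ = Iic (⟨Uᶜ, hU.isClosed_compl⟩ : Closeds X) := by
    ext F
    constructor
    · intro h v hv hvU
      exact h ⟨v, hv, hvU⟩
    · rintro h ⟨v, hv, hvU⟩
      exact h hv hvU
  rw [this]
  exact sc_Iic _

lemma upper_of_isOpen {W : Set (WithScott (Closeds X))} (hW : IsOpen W) {F G : Closeds X}
    (h : F ≤ G) (hF : WithScott.toScott F ∈ W) : WithScott.toScott G ∈ W := by
  by_contra hG
  exact ((isOpen_iff W).1 hW).1 h hG hF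

lemma pc_mem_dia {U : Set X} {v : X} (hv : v ∈ U) : WithScott.toScott (pc v) ∈ dia U :=
  ⟨v, mem_pc v, hv⟩

lemma mem_of_pc_mem_dia {U : Set X} (hU : IsOpen U) {v : X}
    (hv : WithScott.toScott (pc v) ∈ dia U) : v ∈ U := by
  obtain ⟨w, hw, hwU⟩ := hv
  have h1 : w ∈ closure ({v} : Set X) := hw
  obtain ⟨y, hy, hy'⟩ := mem_closure_iff.1 h1 U hU hwU
  rw [mem_singleton_iff] at hy'
  rwa [hy'] at hy

lemma exists_of_chain {Y : Type*} [TopologicalSpace Y] {ι : Type*} [LinearOrder ι] [Nonempty ι]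
    {V U : Set Y} (h : WayBelow V U) (W : ι → Set Y) (hW : ∀ i, IsOpen (W i)) (hm : Monotone W)
    (hc : U ⊆ ⋃ i, W i) : ∃ i, V ⊆ W i := by
  obtain ⟨F, hF, hfin, hVF⟩ := h (range W) (by rintro _ ⟨i, rfl⟩; exact hW i)
    (by rwa [sUnion_range])
  have key : ∀ G : Set (Set Y), G.Finite → G ⊆ range W → ∃ i, ⋃₀ G ⊆ W i := by
    intro G hG
    induction G, hG using Set.Finite.induction_on with
    | empty => intro _; exact ⟨Classical.arbitrary ι, by simp⟩
    | @insert a G _ _ ih =>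
      intro hsub
      obtain ⟨i, hi⟩ := ih ((subset_insert a G).trans hsub)
      obtain ⟨j, hj⟩ := hsub (mem_insert a G)
      refine ⟨max i j, ?_⟩
      rw [sUnion_insert]
      refine union_subset ?_ (hi.trans (hm (le_max_left i j)))
      rw [← hj]
      exact hm (le_max_right i j)
  obtain ⟨i, hi⟩ := key F hfin hF
  exact ⟨i, hVF.trans hi⟩

lemma wayBelow_points {U : Set X} {W : Set (WithScott (Closeds X))}
    (h : WayBelow W (dia U)) : WayBelow {w : X | WithScott.toScott (pc w) ∈ W} U := by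
  intro S hS hUS
  have h1 := h (dia '' S) (by rintro _ ⟨s, hs, rfl⟩; exact isOpen_dia (hS s hs)) (by
    rintro F ⟨v, hv, hvU⟩
    obtain ⟨s, hs, hvs⟩ := hUS hvU
    exact ⟨dia s, ⟨s, hs, rfl⟩, v, hv, hvs⟩)
  rw [Set.exists_subset_image_finite_and] at h1
  obtain ⟨F, hFS, hfin, hF⟩ := h1
  refine ⟨F, hFS, hfin, fun w hw => ?_⟩
  obtain ⟨_, ⟨s, hs, rfl⟩, hws⟩ := hF hw
  exact ⟨s, hs, mem_of_pc_mem_dia (hS s (hFS hs)) hws⟩

lemma exists_finset {W : Set (WithScott (Closeds X))} (hW : IsOpen W) {x : X}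
    (hx : WithScott.toScott (pc x) ∈ W) {A : Set X} (hA : x ∈ closure A) :
    ∃ T : Finset X, (T : Set X) ⊆ A ∧ WithScott.toScott (Closeds.closure (T : Set X)) ∈ W := by
  classical
  by_contra hcon
  push Not at hcon
  have hsc := (isOpen_iff W).1 hW
  have h1 := hsc.2 {F | ∃ T : Finset X, (T : Set X) ⊆ A ∧ F = Closeds.closure (T : Set X)}
    (by rintro F ⟨T, hT, rfl⟩; exact hcon T hT)
    ⟨_, ∅, by simp, rfl⟩
    (by
      rintro F ⟨T, hT, rfl⟩ G ⟨T', hT', rfl⟩
      refine ⟨_, ⟨T ∪ T', by rw [Finset.coe_union]; exact union_subset hT hT', rfl⟩, ?_, ?_⟩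
      · exact Closeds.gc.monotone_l (by simp)
      · exact Closeds.gc.monotone_l (by simp))
  refine hsc.1 (pc_le.2 ?_) h1 hx
  have h2 : A ⊆ (sSup {F | ∃ T : Finset X, (T : Set X) ⊆ A ∧
      F = Closeds.closure (T : Set X)} : Closeds X) := by
    intro a ha
    have h3 : Closeds.closure (({a} : Finset X) : Set X) ≤ sSup {F | ∃ T : Finset X,
        (T : Set X) ⊆ A ∧ F = Closeds.closure (T : Set X)} :=
      le_sSup ⟨{a}, by simpa using ha, rfl⟩
    exact h3 (subset_closure (by simp))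
  exact closure_minimal h2 (Closeds.isClosed _) hA

/-- The main step. -/
lemma no_family {ι : Type*} [LinearOrder ι] [Nonempty ι] [NoMaxOrder ι] {V : Set X}
    (hV : IsOpen V) {W : Set (WithScott (Closeds X))} (hw : WayBelow W (dia V))
    (Q : ι → Set (WithScott (Closeds X))) (hQ : ∀ i, IsOpen (Q i))
    (hcov : ∀ v ∈ V, ∃ i, WithScott.toScott (pc v) ∈ Q i) (T : ι → Finset X)
    (hT : ∀ i, ∀ j < i, ∀ t ∈ T i, WithScott.toScott (pc t) ∉ Q j)
    (hTW : ∀ i, WithScott.toScott (Closeds.closure (T i : Set X)) ∈ W) : False := by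
  by_cases hcase : ∃ r, ∀ i, ∃ j, i ≤ j ∧ (T j).card = r
  · obtain ⟨r, hr⟩ := hcase
    let G : ι → Set (Closeds X) := fun i => {F | ∃ j, i ≤ j ∧ (T j).card = r ∧ ∃ t ∈ T j, F = pc t}
    have hGm : ∀ i i', i ≤ i' → G i' ⊆ G i := by
      rintro i i' hii F ⟨j, hj, hc, t, ht, rfl⟩
      exact ⟨j, hii.trans hj, hc, t, ht, rfl⟩
    let R : ι → Set (WithScott (Closeds X)) := fun i =>
      dia V ∩ (WithScott.ofScott ⁻¹' (pw (clos (G i)) r))ᶜ
    have hRo : ∀ i, IsOpen (R i) := by
      intro i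
      refine (isOpen_dia hV).inter ?_
      rw [isOpen_iff]
      have : (WithScott.toScott ⁻¹' (WithScott.ofScott ⁻¹' (pw (clos (G i)) r))ᶜ)ᶜ
          = pw (clos (G i)) r := by
        ext F
        simp
      rw [this]
      exact sc_pw (sc_clos _) r
    have hRm : Monotone R := by
      intro i i' hii F hF
      refine ⟨hF.1, fun h => hF.2 ?_⟩
      exact pw_mono (clos_mono (hGm i i' hii)) r h
    have hRc : dia V ⊆ ⋃ i, R i := by
      intro F hF
      obtain ⟨v, hvF, hvV⟩ := id hF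
      obtain ⟨j, hj⟩ := hcov v hvV
      obtain ⟨i, hi⟩ := exists_gt j
      refine mem_iUnion.2 ⟨i, hF, fun h => ?_⟩
      have h1 : pc v ∈ pw (clos (G i)) r := (sc_pw (sc_clos _) r).1 (pc_le.2 hvF) h
      have h2 : pc v ∈ clos (G i) := pc_mem_of_pc_mem_pw (sc_clos _) r h1
      have h3 : clos (G i) ⊆ (WithScott.toScott ⁻¹' (Q j))ᶜ := by
        refine clos_subset ((isOpen_iff _).1 (hQ j)) ?_
        rintro F' ⟨k, hk, -, t, ht, rfl⟩
        exact hT k j (hi.trans_le hk) t ht
      exact h3 h2 hj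
    obtain ⟨i, hi⟩ := exists_of_chain hw R hRo hRm hRc
    obtain ⟨j, hij, hjr⟩ := hr i
    have h4 := (hi (hTW j)).2
    apply h4
    change Closeds.closure (T j : Set X) ∈ pw (clos (G i)) r
    have h5 := closure_mem_pw (K := clos (G i)) (T j) fun t ht =>
      subset_clos _ ⟨j, hij, hjr, t, ht, rfl⟩
    rwa [hjr] at h5
  · push Not at hcase
    choose m₀ hm₀ using hcase
    -- a monotone cofinal sequence
    let m : ℕ → ι := fun n => (Finset.range (n + 1)).sup' ⟨0, by simp⟩ m₀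
    have hm : ∀ n k, k ≤ n → m₀ k ≤ m n := fun n k hk =>
      Finset.le_sup' m₀ (by simp; omega)
    have hcof : ∀ j : ι, ∃ n, ∀ k, n ≤ k → j < m k := by
      intro j
      refine ⟨(T j).card, fun k hk => ?_⟩
      by_contra hcon
      rw [not_lt] at hcon
      exact hm₀ (T j).card j ((hm k _ hk).trans hcon) rfl
    have hpt : ∀ v ∈ V, ∃ n, ∀ k, n ≤ k → v ∉ Closeds.closure (T (m k) : Set X) := by
      intro v hv
      obtain ⟨j, hj⟩ := hcov v hv
      obtain ⟨n, hn⟩ := hcof j
      refine ⟨n, fun k hk hvk => ?_⟩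
      have h1 : v ∈ closure (T (m k) : Set X) := hvk
      have h2 : closure (T (m k) : Set X) ⊆ ⋃ t ∈ T (m k), closure {t} := by
        refine closure_minimal ?_ ?_
        · intro t ht
          exact mem_biUnion (Finset.mem_coe.1 ht) (subset_closure rfl)
        · exact Set.Finite.isClosed_biUnion (T (m k)).finite_toSet fun _ _ => isClosed_closure
      obtain ⟨t, ht, hvt⟩ := mem_iUnion₂.1 (h2 h1)
      have h3 : pc v ≤ pc t := pc_le.2 hvt
      exact hT (m k) j (hn k hk) t ht (upper_of_isOpen (hQ j) h3 hj)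
    let R : ℕ → Set (WithScott (Closeds X)) := fun n =>
      {F | F ∈ dia V ∧ ∀ k, n ≤ k →
        ¬ (WithScott.ofScott F : Closeds X) ≤ Closeds.closure (T (m k) : Set X)}
    have hRo : ∀ n, IsOpen (R n) := by
      intro n
      rw [isOpen_iff]
      refine ⟨?_, ?_⟩
      · intro F G hGF hF hG
        refine hF ⟨?_, fun k hk h => hG.2 k hk (hGF.trans h)⟩
        obtain ⟨v, hv, hvV⟩ := hG.1
        exact ⟨v, hGF hv, hvV⟩
      · intro D hD hne hdir hmem
        obtain ⟨hdia, hall⟩ := hmem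
        have hall' : ∀ k, n ≤ k → ∃ d ∈ D, ¬ d ≤ Closeds.closure (T (m k) : Set X) := by
          intro k hk
          by_contra hcon
          push Not at hcon
          exact hall k hk (sSup_le hcon)
        -- an element meeting `V`
        have hd₀ : ∃ d₀ ∈ D, ∃ v ∈ d₀, v ∈ V := by
          by_contra hcon
          push Not at hcon
          have h1 : sSup D ≤ (⟨Vᶜ, hV.isClosed_compl⟩ : Closeds X) :=
            sSup_le fun d hd v hv hvV => hcon d hd v hv hvV
          obtain ⟨v, hv, hvV⟩ := hdia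
          exact h1 hv hvV
        obtain ⟨d₀, hd₀, v, hv, hvV⟩ := hd₀
        obtain ⟨p, hp⟩ := hpt v hvV
        have hfin : ∀ q, ∃ d ∈ D, d₀ ≤ d ∧ ∀ k, n ≤ k → k < q →
            ¬ d ≤ Closeds.closure (T (m k) : Set X) := by
          intro q
          induction q with
          | zero => exact ⟨d₀, hd₀, le_rfl, fun k _ hk => absurd hk (Nat.not_lt_zero k)⟩
          | succ q ih =>
            obtain ⟨d, hd, hle, hk⟩ := ih
            by_cases hnq : n ≤ q
            · obtain ⟨d', hd', hnot⟩ := hall' q hnq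
              obtain ⟨e, he, h1, h2⟩ := hdir d hd d' hd'
              refine ⟨e, he, hle.trans h1, fun k hnk hkq hcon => ?_⟩
              rcases Nat.lt_succ_iff_lt_or_eq.1 hkq with h3 | h3
              · exact hk k hnk h3 (h1.trans hcon)
              · subst h3
                exact hnot (h2.trans hcon)
            · exact ⟨d, hd, hle, fun k hnk hkq => by omega⟩
        obtain ⟨d, hd, hle, hk⟩ := hfin p
        refine hD hd ⟨⟨v, hle hv, hvV⟩, fun k hnk hcon => ?_⟩
        by_cases hkp : k < p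
        · exact hk k hnk hkp hcon
        · exact hp k (by omega) (hcon (hle hv))
    have hRm : Monotone R := fun n n' hnn F hF => ⟨hF.1, fun k hk => hF.2 k (hnn.trans hk)⟩
    have hRc : dia V ⊆ ⋃ n, R n := by
      intro F hF
      obtain ⟨v, hvF, hvV⟩ := id hF
      obtain ⟨n, hn⟩ := hpt v hvV
      exact mem_iUnion.2 ⟨n, hF, fun k hk hcon => hn k hk (hcon hvF)⟩
    obtain ⟨n, hn⟩ := exists_of_chain hw R hRo hRm hRc
    exact (hn (hTW (m n))).2 n le_rfl le_rfl

theorem main (h : IsCoreCompact (WithScott (Closeds X))) : IsCoreCompact X := by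
  classical
  intro U hU x hx
  have hz : ∀ z : U, ∃ W : Set (WithScott (Closeds X)), IsOpen W ∧
      WithScott.toScott (pc z.1) ∈ W ∧ WayBelow W (dia U) := fun z =>
    h (dia U) (isOpen_dia hU) _ (pc_mem_dia z.2)
  choose Q hQo hQm hQw using hz
  let V : U → Set X := fun z => {w | WithScott.toScott (pc w) ∈ Q z}
  -- a subset of minimal cardinality
  have hne : {c : Cardinal.{u} | ∃ Z : Set U, (⋃ z ∈ Z, V z) ∈ 𝓝 x ∧ #Z = c}.Nonempty := by
    refine ⟨_, univ, ?_, rfl⟩
    refine mem_of_superset (hU.mem_nhds hx) fun y hy => ?_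
    exact mem_biUnion (x := (⟨y, hy⟩ : U)) (mem_univ _) (hQm ⟨y, hy⟩)
  obtain ⟨Z, hZ, hZc⟩ := csInf_mem hne
  have hmin : ∀ Z' : Set U, (⋃ z ∈ Z', V z) ∈ 𝓝 x → #Z ≤ #Z' := by
    intro Z' hZ'
    rw [hZc]
    exact csInf_le' ⟨Z', hZ', rfl⟩
  by_cases hfin : Z.Finite
  · refine ⟨interior (⋃ z ∈ Z, V z), isOpen_interior, mem_interior_iff_mem_nhds.2 hZ, ?_⟩
    intro S hS hUS
    have h1 : ∀ z : U, ∃ F ⊆ S, F.Finite ∧ V z ⊆ ⋃₀ F := fun z =>
      wayBelow_points (hQw z) S hS hUS
    choose F hFS hFf hVF using h1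
    refine ⟨⋃ z ∈ Z, F z, iUnion₂_subset fun z _ => hFS z, hfin.biUnion fun z _ => hFf z, ?_⟩
    refine interior_subset.trans (iUnion₂_subset fun z hz => (hVF z).trans ?_)
    exact sUnion_subset_sUnion (subset_biUnion_of_mem hz)
  · exfalso
    have hinf : ℵ₀ ≤ #Z := by
      rw [← Cardinal.infinite_iff]
      exact Set.infinite_coe_iff.2 hfin
    have hι : NoMaxOrder (#Z).ord.ToType := Cardinal.noMaxOrder hinf
    have hιne : Nonempty (#Z).ord.ToType := by
      refine Cardinal.nonempty_ord_toType ?_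
      intro h0
      rw [h0] at hinf
      exact absurd hinf (not_le.2 Cardinal.aleph0_pos)
    obtain ⟨e⟩ : Nonempty ((#Z).ord.ToType ≃ Z) := Cardinal.eq.1 (Cardinal.mk_ord_toType _)
    have hN : ∀ i : (#Z).ord.ToType, (⋃ z ∈ (fun j => (e j).1) '' Iio i, V z) ∉ 𝓝 x := by
      intro i hi
      have h1 := hmin _ hi
      have h2 : #((fun j => (e j).1) '' Iio i) ≤ #(Iio i) := Cardinal.mk_image_le
      exact absurd (h1.trans h2) (not_le.2 (Cardinal.mk_Iio_toType_ord_lt i))
    set V₂ : Set X := interior (⋃ z ∈ Z, V z) with hV₂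
    have hxV₂ : x ∈ V₂ := mem_interior_iff_mem_nhds.2 hZ
    obtain ⟨W, hWo, hWx, hWw⟩ := h (dia V₂) (isOpen_dia isOpen_interior) _ (pc_mem_dia hxV₂)
    have hT : ∀ i : (#Z).ord.ToType, ∃ T : Finset X,
        (T : Set X) ⊆ V₂ \ (⋃ z ∈ (fun j => (e j).1) '' Iio i, V z) ∧
        WithScott.toScott (Closeds.closure (T : Set X)) ∈ W := by
      intro i
      refine exists_finset hWo hWx ?_
      rw [mem_closure_iff]
      intro O hO hxO
      by_contra hcon
      rw [Set.not_nonempty_iff_eq_empty] at hcon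
      refine hN i (mem_of_superset ((hO.inter isOpen_interior).mem_nhds ⟨hxO, hxV₂⟩) ?_)
      rintro y ⟨hyO, hyV⟩
      by_contra hy
      have : y ∈ O ∩ (V₂ \ (⋃ z ∈ (fun j => (e j).1) '' Iio i, V z)) := ⟨hyO, hyV, hy⟩
      rw [hcon] at this
      exact this
    choose T hTs hTW using hT
    refine no_family isOpen_interior hWw (fun i => Q (e i).1) (fun i => hQo _) ?_ T ?_ hTW
    · intro v hv
      obtain ⟨z, hz, hvz⟩ := mem_iUnion₂.1 (interior_subset hv)
      refine ⟨e.symm ⟨z, hz⟩, ?_⟩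
      rw [e.apply_symm_apply]
      exact hvz
    · intro i j hji t ht hmem
      refine (hTs i ht).2 ?_
      exact mem_biUnion (mem_image_of_mem _ hji) hmem

/-- **Full answer to Q1 of MP_1b9d6e_gt.**  If the set of closed subsets of a topological space
`X`, ordered by inclusion and with the Scott topology, is a core-compact space, then `X` is
core-compact. -/
theorem result (X : Type u) [TopologicalSpace X]
    (h : IsCoreCompact (WithScott (Closeds X))) : IsCoreCompact X := main h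

end Pool.Agent.Results.MP_1b9d6e_gt.CoreCompact
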